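import Mathlib
import Pool.Agent.H93.SumNo
import Pool.Agent.H93.RecCor
import Pool.Agent.H61.BanE

set_option autoImplicit false

namespace Pool.Agent.Results.MP_cd1425_an.Four

open Pool.Agent.H93 RecDefs

/-- The recurrence property given by the family F passes to all finite direct sums. -/
def Holds (F : Set ℕ → Prop) : Prop :=
  ∀ (𝕜 : Type) [RCLike 𝕜] (X : Type) [AddCommGroup X] [Module 𝕜 X] [TopologicalSpace X]
    [IsTopologicalAddGroup X] [ContinuousSMul 𝕜 X]
    [TopologicalSpace.IsCompletelyMetrizableSpace X] (T : X →L[𝕜] X),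
    Dense (Rec F T) → ∀ n : ℕ, Dense (Rec F (fun (v : Fin n → X) i => T (v i)))

/-- A counterexample on a real Banach space, with two summands. -/
def Fails (F : Set ℕ → Prop) : Prop :=
  ∃ (X : Type) (_ : NormedAddCommGroup X) (_ : NormedSpace ℝ X) (_ : CompleteSpace X)
    (T : X →L[ℝ] X), Dense (Rec F T) ∧ ¬ Dense (Rec F (fun (v : Fin 2 → X) i => T (v i)))

theorem result : Holds BanPos ∧ Fails UpPos ∧ Fails LowPos ∧ Holds Synd := by
  obtain ⟨X, _, _, _, T, h1, h2⟩ := sum_no
  refine ⟨?_, ⟨X, _, _, inferInstance, T, h1.mono (rec_mono (fun _ => low_up) _), h2⟩,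
    ⟨X, _, _, inferInstance, T, h1, fun h => h2 (h.mono (rec_mono (fun _ => low_up) _))⟩, ?_⟩
  · intro 𝕜 _ X _ _ _ _ _ _ T h n
    exact H61.Ban.joint_ban.sum T.continuous h n
  · intro 𝕜 _ X _ _ _ _ _ _ T h n
    exact joint_synd.sum T.continuous h n

end Pool.Agent.Results.MP_cd1425_an.Four
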